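import Pool.Agent.K7.H72.IP.Stm

set_option autoImplicit false

namespace Pool.Agent.K7.H72.IP

open SimpleGraph

/-- Job KA1: independent `a`-subsets of a set of vertices. -/
def StKA1 : Prop :=
  ∀ (n : ℕ) (G : SimpleGraph (Fin n)) (t a : ℕ), 1 ≤ t → 1 ≤ a → NoK t G → ∀ N : Finset (Fin n),
    N.card.choose a ≤ (1 + {A : Finset (Fin n) | A ⊆ N ∧ A.card = a ∧
      ∀ x ∈ A, ∀ y ∈ A, ¬ G.Adj x y}.ncard) * (2 ^ (2 * t + a)).choose a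

/-- Job KA2: an independent set of `a` vertices has few common neighbours. -/
def StKA2 : Prop :=
  ∀ (n : ℕ) (G : SimpleGraph (Fin n)) (t a b : ℕ), 1 ≤ t → NoK t G →
    IsEmpty (completeBipartiteGraph (Fin a) (Fin b) ↪g G) → ∀ A : Finset (Fin n), A.card = a →
      (∀ x ∈ A, ∀ y ∈ A, ¬ G.Adj x y) → {v : Fin n | ∀ x ∈ A, G.Adj v x}.ncard < 2 ^ (2 * t + b)

/-- Job KA3: the power mean. -/
def StKA3 : Prop :=
  ∀ a K : ℕ, 1 ≤ a → ∃ C : ℝ, ∀ (n : ℕ) (d : Fin n → ℕ), ∑ v, (d v).choose a ≤ K * n ^ a →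
    (∑ v, (d v : ℝ)) ≤ C * (n : ℝ) ^ (2 - 1 / (a : ℝ))

/-- induced `K_{a,b}`-free graphs without `K_{t,t}` have `O(n^{2-1/a})` edges -/
def StKab : Prop :=
  ∀ a b t : ℕ, 1 ≤ a → 1 ≤ t → ∃ C : ℝ, ∀ (n : ℕ) (G : SimpleGraph (Fin n)),
    IsEmpty (completeBipartiteGraph (Fin a) (Fin b) ↪g G) → NoK t G →
      (G.edgeSet.ncard : ℝ) ≤ C * (n : ℝ) ^ (2 - 1 / (a : ℝ))

end Pool.Agent.K7.H72.IP
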