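import Pool.Agent.K7.H72.IP.Stm2

set_option autoImplicit false

namespace Pool.Agent.K7.H72.IP

open SimpleGraph

theorem kab (h1 : StKA1) (h2 : StKA2) (h3 : StKA3) : StKab := by
  classical
  intro a b t ha ht
  set R' : ℕ := (2 ^ (2 * t + a)).choose a with hR'
  set M : ℕ := 2 ^ (2 * t + b) with hM
  obtain ⟨C, hC⟩ := h3 a (R' * (1 + M)) ha
  refine ⟨C, ?_⟩
  intro n G hG hK
  let N : Fin n → Finset (Fin n) := fun v => Finset.univ.filter fun w => G.Adj v w
  let 𝒜 : Finset (Finset (Fin n)) := (Finset.univ.powersetCard a).filter fun A =>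
    ∀ x ∈ A, ∀ y ∈ A, ¬ G.Adj x y
  have hI : ∀ v, {A : Finset (Fin n) | A ⊆ N v ∧ A.card = a ∧
      ∀ x ∈ A, ∀ y ∈ A, ¬ G.Adj x y}.ncard = (𝒜.filter fun A => A ⊆ N v).card := by
    intro v
    rw [← Set.ncard_coe_finset]
    congr 1
    ext A
    simp only [𝒜, Set.mem_ofPred_eq, Finset.coe_filter, Finset.mem_filter, Finset.mem_powersetCard,
      Finset.subset_univ, true_and]
    tauto
  have hsum : ∑ v, (𝒜.filter fun A => A ⊆ N v).card ≤ n ^ a * M := by
    have e1 : ∑ v, (𝒜.filter fun A => A ⊆ N v).card =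
        ∑ A ∈ 𝒜, ((Finset.univ : Finset (Fin n)).filter fun v => A ⊆ N v).card :=
      Finset.sum_card_bipartiteAbove_eq_sum_card_bipartiteBelow (s := Finset.univ) (t := 𝒜)
        (fun v A => A ⊆ N v)
    rw [e1]
    have e2 : ∀ A ∈ 𝒜, ((Finset.univ : Finset (Fin n)).filter fun v => A ⊆ N v).card ≤ M := by
      intro A hA
      rw [Finset.mem_filter, Finset.mem_powersetCard] at hA
      have e3 := (h2 n G t a b ht hK hG A hA.1.2 hA.2).le
      refine le_trans (le_of_eq ?_) e3
      rw [← Set.ncard_coe_finset]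
      congr 1
      ext v
      simp only [N, Finset.coe_filter, Finset.mem_univ, true_and, Set.mem_ofPred_eq,
        Finset.subset_iff, Finset.mem_filter]
    refine (Finset.sum_le_card_nsmul _ _ M e2).trans ?_
    rw [smul_eq_mul]
    refine Nat.mul_le_mul_right M ?_
    refine (Finset.card_filter_le _ _).trans ?_
    rw [Finset.card_powersetCard, Finset.card_univ, Fintype.card_fin]
    exact Nat.choose_le_pow n a
  have hmain : ∑ v, ((N v).card).choose a ≤ R' * (1 + M) * n ^ a := by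
    calc ∑ v, ((N v).card).choose a
        ≤ ∑ v, (1 + (𝒜.filter fun A => A ⊆ N v).card) * R' := by
          refine Finset.sum_le_sum fun v _ => ?_
          rw [← hI v]
          exact h1 n G t a ht ha hK (N v)
      _ = (n + ∑ v, (𝒜.filter fun A => A ⊆ N v).card) * R' := by
          rw [← Finset.sum_mul, Finset.sum_add_distrib]
          simp
      _ ≤ (n ^ a + n ^ a * M) * R' := by
          refine Nat.mul_le_mul_right _ (add_le_add ?_ hsum)
          rcases Nat.eq_zero_or_pos n with rfl | hn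
          · simp
          · exact Nat.le_self_pow (by omega) n
      _ = R' * (1 + M) * n ^ a := by ring
  have h4 := hC n (fun v => (N v).card) hmain
  refine le_trans ?_ h4
  have h5 : ∑ v, G.degree v = 2 * G.edgeFinset.card := G.sum_degrees_eq_twice_card_edges
  have h6 : G.edgeSet.ncard = G.edgeFinset.card := by
    rw [← coe_edgeFinset, Set.ncard_coe_finset]
  have h7 : ∀ v, (N v).card = G.degree v := by
    intro v
    rw [← G.card_neighborFinset_eq_degree v]
    congr 1
    ext w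
    simp [N]
  have h8 : (G.edgeSet.ncard : ℝ) ≤ ((∑ v, G.degree v : ℕ) : ℝ) := by
    rw [h5, h6]
    push_cast
    have : (0 : ℝ) ≤ (G.edgeFinset.card : ℝ) := by positivity
    linarith
  refine h8.trans (le_of_eq ?_)
  push_cast
  exact Finset.sum_congr rfl fun v _ => by rw [h7 v]

/-- `Q` for `K_{a,b}` if the extremal numbers have the expected order of magnitude -/
theorem q_kab (hU : StKab) (a b : ℕ) (ha : 1 ≤ a) (hex : ∃ c : ℝ, 0 < c ∧ ∀ n : ℕ, 2 ≤ n →
    c * (n : ℝ) ^ (2 - 1 / (a : ℝ)) ≤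
      (extremalNumber n (completeBipartiteGraph (Fin a) (Fin b)) : ℝ)) :
    Q (completeBipartiteGraph (Fin a) (Fin b)) := by
  classical
  have hU' : ∀ t : ℕ, 1 ≤ t → ∃ C : ℝ, ∀ (n : ℕ) (G : SimpleGraph (Fin n)),
    IsEmpty (completeBipartiteGraph (Fin a) (Fin b) ↪g G) → NoK t G →
      (G.edgeSet.ncard : ℝ) ≤ C * (n : ℝ) ^ (2 - 1 / (a : ℝ)) := fun t ht => hU a b t ha ht
  choose! C hC using hU'
  obtain ⟨c, hc, hlow⟩ := hex
  refine ⟨fun t => |C t| / c, ?_⟩
  intro t ht n hn G hG hK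
  rcases Nat.lt_or_ge n 2 with hn2 | hn2
  · have hn1 : n = 1 := by omega
    subst hn1
    have hzero : G.edgeSet.ncard = 0 := by
      rw [Set.ncard_eq_zero (Set.toFinite _), Set.eq_empty_iff_forall_notMem]
      intro e he
      induction e using Sym2.ind with
      | _ a b =>
        have : a = b := Subsingleton.elim _ _
        subst this
        exact G.irrefl he
    rw [hzero, Nat.cast_zero]
    positivity
  · have h1 := hC t ht n G hG hK
    have h2 := hlow n hn2
    have h3 : (n : ℝ) ^ (2 - 1 / (a : ℝ)) ≤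
        (extremalNumber n (completeBipartiteGraph (Fin a) (Fin b)) : ℝ) / c := by
      rw [le_div_iff₀ hc]
      linarith
    have h4 : C t * (n : ℝ) ^ (2 - 1 / (a : ℝ)) ≤ |C t| * (n : ℝ) ^ (2 - 1 / (a : ℝ)) :=
      mul_le_mul_of_nonneg_right (le_abs_self _) (by positivity)
    have h5 : |C t| * (n : ℝ) ^ (2 - 1 / (a : ℝ)) ≤
        |C t| * ((extremalNumber n (completeBipartiteGraph (Fin a) (Fin b)) : ℝ) / c) :=
      mul_le_mul_of_nonneg_left h3 (abs_nonneg _)
    calc (G.edgeSet.ncard : ℝ) ≤ _ := h1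
      _ ≤ _ := h4
      _ ≤ _ := h5
      _ = _ := by ring

/-- `Q` for `K_{2,b}`, `b ≥ 2` -/
theorem q_k2b (hU : StKab) (hL : StC4L) (b : ℕ) (hb : 2 ≤ b) :
    Q (completeBipartiteGraph (Fin 2) (Fin b)) := by
  refine q_kab hU 2 b (by norm_num) ?_
  obtain ⟨c, hc, hlow⟩ := hL
  refine ⟨c, hc, fun n hn => ?_⟩
  have h1 := hlow n hn
  have e1 : (2 : ℝ) - 1 / ((2 : ℕ) : ℝ) = 3 / 2 := by norm_num
  rw [e1]
  refine h1.trans ?_
  have h2 : completeBipartiteGraph (Fin 2) (Fin 2) ⊑ completeBipartiteGraph (Fin 2) (Fin b) := by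
    refine ⟨⟨⟨Sum.map id (Fin.castLE hb), ?_⟩, ?_⟩⟩
    · rintro (x | x) (y | y) h <;> simp at h ⊢
    · exact Sum.map_injective.2 ⟨Function.injective_id, Fin.castLE_injective hb⟩
  exact_mod_cast h2.extremalNumber_le

end Pool.Agent.K7.H72.IP
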