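import Pool.Agent.K7.H72.IP.Stm

set_option autoImplicit false

namespace Pool.Agent.K7.H72.IPPEND

open SimpleGraph Pool.Agent.K7.H72.IP

theorem pend_adj_some {V : Type} (H : SimpleGraph V) (v x y : V) :
    (pend H v).Adj (some x) (some y) ↔ H.Adj x y := by
  unfold pend
  constructor
  · rintro (⟨a, b, h1, h2, h⟩ | ⟨-, h⟩ | ⟨h, -⟩)
    · cases h1; cases h2; exact h
    · cases h
    · cases h
  · intro h
    exact Or.inl ⟨x, y, rfl, rfl, h⟩

theorem pend_adj_none {V : Type} (H : SimpleGraph V) (v x : V) :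
    (pend H v).Adj (some x) none ↔ x = v := by
  unfold pend
  constructor
  · rintro (⟨a, b, h1, h2, h⟩ | ⟨h, -⟩ | ⟨h, -⟩)
    · cases h2
    · cases h; rfl
    · cases h
  · rintro rfl
    exact Or.inr (Or.inl ⟨rfl, rfl⟩)

/-- extension of an induced copy -/
theorem ext {V : Type} {n : ℕ} (H : SimpleGraph V) (v : V) (G : SimpleGraph (Fin n))
    (φ : H ↪g G) (w : Fin n) (h1 : G.Adj (φ v) w) (h2 : ∀ u, u ≠ v → ¬ G.Adj (φ u) w)
    (h3 : ∀ u, w ≠ φ u) : Nonempty (pend H v ↪g G) := by
  let F : Option V → Fin n := fun a => a.elim w φ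
  have hinj : Function.Injective F := by
    rintro (_ | a) (_ | b) h
    · rfl
    · exact absurd h (h3 b)
    · exact absurd h.symm (h3 a)
    · exact congrArg some (φ.injective h)
  refine ⟨⟨⟨F, hinj⟩, ?_⟩⟩
  rintro (_ | a) (_ | b)
  · simp
  · change G.Adj w (φ b) ↔ (pend H v).Adj none (some b)
    rw [adj_comm (pend H v), pend_adj_none, adj_comm]
    constructor
    · intro h
      by_contra hb
      exact h2 b hb h
    · rintro rfl
      exact h1
  · change G.Adj (φ a) w ↔ (pend H v).Adj (some a) none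
    rw [pend_adj_none]
    constructor
    · intro h
      by_contra hb
      exact h2 a hb h
    · rintro rfl
      exact h1
  · change G.Adj (φ a) (φ b) ↔ (pend H v).Adj (some a) (some b)
    rw [pend_adj_some]
    exact φ.map_adj_iff

theorem exists_w {V : Type} [Fintype V] [DecidableEq V] {n : ℕ} (H : SimpleGraph V) (v : V)
    (G : SimpleGraph (Fin n)) (φ : H ↪g G) (hd : 2 * Fintype.card V ≤ dg G (φ v))
    (hc : ∀ u, u ≠ v → 2 * Fintype.card V * cn G (φ u) (φ v) < dg G (φ v)) :
    ∃ w, G.Adj (φ v) w ∧ (∀ u, u ≠ v → ¬ G.Adj (φ u) w) ∧ ∀ u, w ≠ φ u := by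
  classical
  by_contra hcon
  push Not at hcon
  set h := Fintype.card V with hh
  have hpos : 0 < h := Fintype.card_pos_iff.2 ⟨v⟩
  set d := dg G (φ v) with hdd
  have h1 : d ≤ (∑ u ∈ Finset.univ.erase v, cn G (φ u) (φ v)) + (h - 1) := by
    have hsub : (Finset.univ.filter fun w => G.Adj (φ v) w) ⊆
        ((Finset.univ.erase v).biUnion fun u => Finset.univ.filter fun w =>
          G.Adj (φ u) w ∧ G.Adj (φ v) w) ∪ (Finset.univ.erase v).image φ := by
      intro w hw
      rw [Finset.mem_filter] at hw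
      rw [Finset.mem_union, Finset.mem_biUnion, Finset.mem_image]
      by_cases hex : ∀ u, u ≠ v → ¬ G.Adj (φ u) w
      · obtain ⟨u, hu⟩ := hcon w hw.2 hex
        right
        refine ⟨u, ?_, hu.symm⟩
        rw [Finset.mem_erase]
        refine ⟨?_, Finset.mem_univ _⟩
        rintro rfl
        rw [hu] at hw
        exact G.irrefl hw.2
      · push Not at hex
        obtain ⟨u, hu, hadj⟩ := hex
        left
        exact ⟨u, Finset.mem_erase.2 ⟨hu, Finset.mem_univ _⟩,
          Finset.mem_filter.2 ⟨Finset.mem_univ _, hadj, hw.2⟩⟩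
    have e1 : d = (Finset.univ.filter fun w => G.Adj (φ v) w).card := by
      rw [hdd]
      unfold dg
      rw [← Set.ncard_coe_finset]
      congr 1
      ext w
      simp
    have e2 : ∀ u, cn G (φ u) (φ v) =
        (Finset.univ.filter fun w => G.Adj (φ u) w ∧ G.Adj (φ v) w).card := by
      intro u
      unfold cn
      rw [← Set.ncard_coe_finset]
      congr 1
      ext w
      simp
    rw [e1]
    refine (Finset.card_le_card hsub).trans ((Finset.card_union_le _ _).trans ?_)
    refine add_le_add (Finset.card_biUnion_le.trans (le_of_eq ?_)) ?_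
    · exact Finset.sum_congr rfl fun u _ => (e2 u).symm
    · refine Finset.card_image_le.trans ?_
      rw [Finset.card_erase_of_mem (Finset.mem_univ _), Finset.card_univ]
  have h2 : 2 * h * (∑ u ∈ Finset.univ.erase v, cn G (φ u) (φ v)) ≤ (h - 1) * d := by
    rw [Finset.mul_sum]
    refine (Finset.sum_le_card_nsmul _ _ d fun u hu => ?_).trans (le_of_eq ?_)
    · exact (hc u (Finset.ne_of_mem_erase hu)).le
    · rw [Finset.card_erase_of_mem (Finset.mem_univ _), Finset.card_univ, smul_eq_mul]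
  obtain ⟨g, hg⟩ : ∃ g, h = g + 1 := ⟨h - 1, by omega⟩
  rw [hg] at h1 h2 hd
  simp only [Nat.add_sub_cancel] at h1 h2
  set s := ∑ u ∈ Finset.univ.erase v, cn G (φ u) (φ v)
  nlinarith [Nat.mul_le_mul_left (2 * (g + 1)) h1, Nat.mul_le_mul_left (g + 2) hd]

theorem low_edges {n : ℕ} (G : SimpleGraph (Fin n)) (D : ℕ) :
    G.edgeSet.ncard ≤ D * n +
      {e : Sym2 (Fin n) | e ∈ G.edgeSet ∧ ∀ x ∈ e, D ≤ dg G x}.ncard := by
  classical
  have hsub : G.edgeSet ⊆ (((Finset.univ.filter fun x => dg G x < D).biUnion fun x =>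
      (Finset.univ.filter fun w => G.Adj x w).image fun w => s(x, w) : Finset (Sym2 (Fin n))) :
        Set (Sym2 (Fin n))) ∪ {e : Sym2 (Fin n) | e ∈ G.edgeSet ∧ ∀ x ∈ e, D ≤ dg G x} := by
    intro e he
    by_cases hx : ∀ x ∈ e, D ≤ dg G x
    · right; exact ⟨he, hx⟩
    · left
      push Not at hx
      obtain ⟨x, hxe, hlt⟩ := hx
      obtain ⟨w, rfl⟩ := Sym2.mem_iff_exists.1 hxe
      rw [Finset.mem_coe, Finset.mem_biUnion]
      refine ⟨x, Finset.mem_filter.2 ⟨Finset.mem_univ _, hlt⟩, ?_⟩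
      rw [Finset.mem_image]
      exact ⟨w, Finset.mem_filter.2 ⟨Finset.mem_univ _, he⟩, rfl⟩
  refine (Set.ncard_le_ncard hsub (Set.toFinite _)).trans ((Set.ncard_union_le _ _).trans ?_)
  refine add_le_add ?_ le_rfl
  rw [Set.ncard_coe_finset]
  refine Finset.card_biUnion_le.trans ?_
  have hb : ∀ x ∈ (Finset.univ.filter fun x => dg G x < D),
      ((Finset.univ.filter fun w => G.Adj x w).image fun w => s(x, w)).card ≤ D := by
    intro x hx
    refine Finset.card_image_le.trans ?_
    have e1 : (Finset.univ.filter fun w => G.Adj x w).card = dg G x := by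
      unfold dg
      rw [← Set.ncard_coe_finset]
      congr 1
      ext w
      simp
    rw [e1]
    exact (Finset.mem_filter.1 hx).2.le
  refine (Finset.sum_le_card_nsmul _ _ D hb).trans ?_
  rw [smul_eq_mul, mul_comm]
  refine Nat.mul_le_mul_left D ?_
  refine (Finset.card_le_univ _).trans (le_of_eq (Fintype.card_fin n))

theorem t (hHeavy : StHeavy) (hRand : StRand) (hSub : StSub) (hExP : StExP) : StPend := by
  classical
  intro V _ H hH ⟨f, hf⟩ v
  have := Fintype.ofFinite V
  set h := Fintype.card V with hh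
  have hpos : 1 ≤ h := Fintype.card_pos_iff.2 ⟨v⟩
  obtain ⟨v', hv'⟩ := hH v
  refine ⟨fun t => 3 * ((max (2 * h) (4 * h * t * 2 ^ (4 * h * t)) : ℕ) + (4 * h * t : ℕ) : ℝ) +
    4 ^ (4 * h * t + 1) * |f t|, ?_⟩
  intro t ht n hn G hG hK
  set D : ℕ := max (2 * h) (4 * h * t * 2 ^ (4 * h * t)) with hD
  set T : ℕ := 4 * h * t with hT
  have hD1 : 2 * h ≤ D := le_max_left _ _
  have hD2 : 4 * h * t * 2 ^ (4 * h * t) ≤ D := le_max_right _ _
  have hex := hExP V H v v' hv' n
  -- the graph of the vertices of large degree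
  let G' : SimpleGraph (Fin n) :=
    { Adj := fun a b => G.Adj a b ∧ D ≤ dg G a ∧ D ≤ dg G b
      symm := ⟨fun a b h => ⟨h.1.symm, h.2.2, h.2.1⟩⟩
      loopless := ⟨fun a h => G.irrefl h.1⟩ }
  let P : Fin n → Finset (Fin n) := fun x =>
    if D ≤ dg G x then Finset.univ.filter (fun u => dg G x ≤ 2 * h * cn G u x) else ∅
  have hP : ∀ x, (P x).card ≤ T := by
    intro x
    by_cases hx : D ≤ dg G x
    · have e1 := hHeavy t h ht hpos n G hK x (hD2.trans hx)
      have e2 : P x = Finset.univ.filter (fun u => dg G x ≤ 2 * h * cn G u x) := if_pos hx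
      rw [e2, ← Set.ncard_coe_finset]
      refine le_trans (le_of_eq ?_) e1
      congr 1
      ext u
      simp
    · have e2 : P x = ∅ := if_neg hx
      rw [e2]
      simp
  obtain ⟨S, hS1, hS2⟩ := hRand n T G' P hP
  set S2 : Finset (Fin n) := S.filter fun x => D ≤ dg G x with hS2d
  have hno : ¬ ∃ φ : H ↪g G, ∀ x, φ x ∈ S2 := by
    rintro ⟨φ, hφ⟩
    have hφS : ∀ x, φ x ∈ S := fun x => (Finset.mem_filter.1 (hφ x)).1
    have hφD : ∀ x, D ≤ dg G (φ x) := fun x => (Finset.mem_filter.1 (hφ x)).2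
    obtain ⟨w, hw1, hw2, hw3⟩ := exists_w H v G φ (hD1.trans (hφD v)) (by
      intro u hu
      have hne : φ u ≠ φ v := fun h => hu (φ.injective h)
      have h1 := hS1 (φ v) (hφS v) (φ u) (hφS u) hne
      have e2 : P (φ v) = Finset.univ.filter (fun u => dg G (φ v) ≤ 2 * h * cn G u (φ v)) :=
        if_pos (hφD v)
      rw [e2, Finset.mem_filter] at h1
      push Not at h1
      exact h1 (Finset.mem_univ _))
    obtain ⟨ψ⟩ := ext H v G φ w hw1 hw2 hw3
    exact hG.false ψ
  have hsub := hSub V H f hH hf t ht n hn G hK S2 hno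
  have h1 : eIn G' S ≤ eIn G S2 := by
    unfold eIn
    refine Set.ncard_le_ncard ?_ (Set.toFinite _)
    rintro e ⟨he, heS⟩
    induction e using Sym2.ind with
    | _ a b =>
      have hadj : G'.Adj a b := he
      refine ⟨hadj.1, ?_⟩
      intro x hx
      rw [Sym2.mem_iff] at hx
      rw [hS2d, Finset.mem_filter]
      rcases hx with rfl | rfl
      · exact ⟨heS _ (Sym2.mem_mk_left _ _), hadj.2.1⟩
      · exact ⟨heS _ (Sym2.mem_mk_right _ _), hadj.2.2⟩
  have h2 : G.edgeSet.ncard ≤ D * n + G'.edgeSet.ncard := by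
    refine (low_edges G D).trans (add_le_add le_rfl (Set.ncard_le_ncard ?_ (Set.toFinite _)))
    rintro e ⟨he, hed⟩
    induction e using Sym2.ind with
    | _ a b =>
      exact ⟨he, hed _ (Sym2.mem_mk_left _ _), hed _ (Sym2.mem_mk_right _ _)⟩
  have h3 : (G.edgeSet.ncard : ℝ) ≤ (D + T : ℝ) * n + 4 ^ (T + 1) * (|f t| * (extremalNumber n H : ℝ)) := by
    have e1 : (G.edgeSet.ncard : ℝ) ≤ D * n + (T * n + 4 ^ (T + 1) * (eIn G' S : ℝ)) := by
      exact_mod_cast h2.trans (add_le_add le_rfl hS2)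
    have e2 : (4 : ℝ) ^ (T + 1) * (eIn G' S : ℝ) ≤ 4 ^ (T + 1) * (|f t| * (extremalNumber n H : ℝ)) := by
      refine mul_le_mul_of_nonneg_left ?_ (by positivity)
      exact le_trans (by exact_mod_cast h1) hsub
    nlinarith
  have h4 : (extremalNumber n H : ℝ) ≤ extremalNumber n (pend H v) := by exact_mod_cast hex.1
  have h5 : (4 : ℝ) ^ (T + 1) * (|f t| * (extremalNumber n H : ℝ)) ≤
      4 ^ (T + 1) * |f t| * extremalNumber n (pend H v) := by
    rw [mul_assoc]
    exact mul_le_mul_of_nonneg_left (mul_le_mul_of_nonneg_left h4 (abs_nonneg _)) (by positivity)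
  rcases Nat.lt_or_ge n 2 with hn2 | hn2
  · have hn1 : n = 1 := by omega
    subst hn1
    have hzero : G.edgeSet.ncard = 0 := by
      rw [Set.ncard_eq_zero (Set.toFinite _), Set.eq_empty_iff_forall_notMem]
      intro e he
      induction e using Sym2.ind with
      | _ a b =>
        have : a = b := Subsingleton.elim _ _
        subst this
        exact G.irrefl he
    rw [hzero, Nat.cast_zero]
    positivity
  · have h6 : (n : ℝ) ≤ 3 * extremalNumber n (pend H v) := by exact_mod_cast hex.2 hn2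
    have h7 : (D + T : ℝ) * n ≤ (D + T : ℝ) * (3 * extremalNumber n (pend H v)) :=
      mul_le_mul_of_nonneg_left h6 (by positivity)
    change (G.edgeSet.ncard : ℝ) ≤ (3 * ((D : ℝ) + (T : ℝ)) + 4 ^ (T + 1) * |f t|) * _
    nlinarith

end Pool.Agent.K7.H72.IPPEND
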