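import Mathlib

set_option autoImplicit false

/-!
# Project IP (helper72): induced copies in graphs without `K_{t,t}` (MP_a2fd8c_co)

The property `Q H` (the assertion of Q1 for `H`) is closed under disjoint unions and under
attaching pendant edges.
-/

namespace Pool.Agent.K7.H72.IP

open SimpleGraph

/-- no (not necessarily induced) `K_{t,t}` -/
def NoK (t : ℕ) {V : Type} (G : SimpleGraph V) : Prop :=
  (completeBipartiteGraph (Fin t) (Fin t)).Free G

/-- the assertion of Q1 for `H`, with the function `f` -/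
def QF {V : Type} (H : SimpleGraph V) (f : ℕ → ℝ) : Prop :=
  ∀ t : ℕ, 1 ≤ t → ∀ n : ℕ, 1 ≤ n → ∀ G : SimpleGraph (Fin n), IsEmpty (H ↪g G) → NoK t G →
    (G.edgeSet.ncard : ℝ) ≤ f t * (extremalNumber n H : ℝ)

/-- the assertion of Q1 for `H` -/
def Q {V : Type} (H : SimpleGraph V) : Prop := ∃ f : ℕ → ℝ, QF H f

/-- the graph `H` with a new vertex `none` which is adjacent to `v` only -/
def pend {V : Type} (H : SimpleGraph V) (v : V) : SimpleGraph (Option V) where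
  Adj a b := (∃ x y, a = some x ∧ b = some y ∧ H.Adj x y) ∨ (a = some v ∧ b = none) ∨
    (a = none ∧ b = some v)
  symm := ⟨by
    rintro a b (⟨x, y, rfl, rfl, h⟩ | ⟨rfl, rfl⟩ | ⟨rfl, rfl⟩)
    · exact Or.inl ⟨y, x, rfl, rfl, h.symm⟩
    · exact Or.inr (Or.inr ⟨rfl, rfl⟩)
    · exact Or.inr (Or.inl ⟨rfl, rfl⟩)⟩
  loopless := ⟨by
    rintro a (⟨x, y, rfl, h1, h⟩ | ⟨rfl, h⟩ | ⟨rfl, h⟩)
    · cases h1
      exact h.ne rfl
    · cases h
    · cases h⟩

/-- degree -/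
noncomputable def dg {V : Type} (G : SimpleGraph V) (v : V) : ℕ := {w | G.Adj v w}.ncard

/-- number of common neighbours -/
noncomputable def cn {V : Type} (G : SimpleGraph V) (u v : V) : ℕ :=
  {w | G.Adj u w ∧ G.Adj v w}.ncard

/-- number of edges with both ends in `S` -/
noncomputable def eIn {V : Type} (G : SimpleGraph V) (S : Finset V) : ℕ :=
  {e : Sym2 V | e ∈ G.edgeSet ∧ ∀ x ∈ e, x ∈ S}.ncard

/-- Job HEAVY: a vertex of large degree has few vertices which are adjacent to at least a fixed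
proportion of its neighbours. -/
def StHeavy : Prop :=
  ∀ t h : ℕ, 1 ≤ t → 1 ≤ h → ∀ (n : ℕ) (G : SimpleGraph (Fin n)), NoK t G →
    ∀ v : Fin n, 4 * h * t * 2 ^ (4 * h * t) ≤ dg G v →
      {u : Fin n | dg G v ≤ 2 * h * cn G u v}.ncard ≤ 4 * h * t

/-- Job RAND: random subset avoiding few forbidden partners of every vertex. -/
def StRand : Prop :=
  ∀ (n T : ℕ) (G : SimpleGraph (Fin n)) (P : Fin n → Finset (Fin n)), (∀ v, (P v).card ≤ T) →
    ∃ S : Finset (Fin n), (∀ v ∈ S, ∀ u ∈ S, u ≠ v → u ∉ P v) ∧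
      G.edgeSet.ncard ≤ T * n + 4 ^ (T + 1) * eIn G S

/-- Job SUB: `QF` for induced subgraphs. -/
def StSub : Prop :=
  ∀ (V : Type) (H : SimpleGraph V) (f : ℕ → ℝ), (∀ v, ∃ w, H.Adj v w) → QF H f → ∀ t : ℕ, 1 ≤ t → ∀ n : ℕ, 1 ≤ n →
    ∀ G : SimpleGraph (Fin n), NoK t G → ∀ S : Finset (Fin n),
      (¬ ∃ φ : H ↪g G, ∀ x, φ x ∈ S) → (eIn G S : ℝ) ≤ |f t| * (extremalNumber n H : ℝ)

/-- Job EXP: extremal numbers and pendant edges. -/
def StExP : Prop :=
  ∀ (V : Type) (H : SimpleGraph V) (v w : V), H.Adj v w → ∀ n : ℕ,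
    extremalNumber n H ≤ extremalNumber n (pend H v) ∧ (2 ≤ n → n ≤ 3 * extremalNumber n (pend H v))

/-- Job EXS: extremal numbers and disjoint unions. -/
def StExS : Prop :=
  ∀ (V W : Type) (H : SimpleGraph V) (K : SimpleGraph W), H.edgeSet.Nonempty → K.edgeSet.Nonempty →
    ∀ n : ℕ, extremalNumber n H ≤ extremalNumber n (H ⊕g K) ∧
      extremalNumber n K ≤ extremalNumber n (H ⊕g K) ∧ (2 ≤ n → n ≤ 2 * extremalNumber n (H ⊕g K))

/-- closure under pendant edges -/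
def StPend : Prop :=
  ∀ (V : Type) [Finite V] (H : SimpleGraph V), (∀ v, ∃ w, H.Adj v w) → Q H →
    ∀ v : V, Q (pend H v)

/-- Job TOUCH: few edges meet most of many closed neighbourhoods. -/
def StTouch : Prop :=
  ∀ t m : ℕ, 1 ≤ t → ∀ (n : ℕ) (G : SimpleGraph (Fin n)), NoK t G →
    ∀ x : Fin m → Fin n, Function.Injective x →
      {e : Sym2 (Fin n) | e ∈ G.edgeSet ∧
        2 * t ≤ {i : Fin m | ∃ a ∈ e, a = x i ∨ G.Adj a (x i)}.ncard}.ncard ≤ (m + 2 ^ m * t) * n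

/-- closure under disjoint unions -/
def StDisj : Prop :=
  ∀ (V W : Type) [Finite V] [Finite W] (H : SimpleGraph V) (K : SimpleGraph W),
    H.edgeSet.Nonempty → K.edgeSet.Nonempty → (∀ v, ∃ w, H.Adj v w) → (∀ v, ∃ w, K.Adj v w) →
      Q H → Q K → Q (H ⊕g K)

/-- Job K2: a single edge. -/
def StK2 : Prop := Q (⊤ : SimpleGraph (Fin 2))

/-- Job ISO: invariance under isomorphism. -/
def StIso : Prop := ∀ (V W : Type) (H : SimpleGraph V) (K : SimpleGraph W), Nonempty (H ≃g K) → Q H → Q K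

/-- Job RED: reduction to connected graphs of minimum degree at least two. -/
def StRed : Prop :=
  (∀ (k : ℕ) (K : SimpleGraph (Fin k)), K.Colorable 2 → K.Connected → (∀ v, 2 ≤ dg K v) → Q K) →
    ∀ (k : ℕ) (H : SimpleGraph (Fin k)), H.Colorable 2 → H.edgeSet.Nonempty →
      (∀ v, ∃ w, H.Adj v w) → Q H

/-- Job C4U: induced `C_4`-free graphs without `K_{t,t}` have `O(n^{3/2})` edges. -/
def StC4U : Prop :=
  ∀ t : ℕ, 1 ≤ t → ∃ C : ℝ, ∀ (n : ℕ) (G : SimpleGraph (Fin n)),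
    IsEmpty (completeBipartiteGraph (Fin 2) (Fin 2) ↪g G) → NoK t G →
      (G.edgeSet.ncard : ℝ) ≤ C * (n : ℝ) ^ (3 / 2 : ℝ)

/-- Job C4L: `ex(n, C_4) ≥ c n^{3/2}`. -/
def StC4L : Prop :=
  ∃ c : ℝ, 0 < c ∧ ∀ n : ℕ, 2 ≤ n →
    c * (n : ℝ) ^ (3 / 2 : ℝ) ≤ (extremalNumber n (completeBipartiteGraph (Fin 2) (Fin 2)) : ℝ)

end Pool.Agent.K7.H72.IP
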