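import Pool.Agent.K7.H72.IP.Stm

set_option autoImplicit false

namespace Pool.Agent.K7.H72.IP

open SimpleGraph

/-- The graphs that arise from single edges and 4-cycles by disjoint unions and by attaching
pendant edges. -/
inductive Tame : {V : Type} → SimpleGraph V → Prop
  | edge : Tame (⊤ : SimpleGraph (Fin 2))
  | square : Tame (completeBipartiteGraph (Fin 2) (Fin 2))
  | sum {V W : Type} (H : SimpleGraph V) (K : SimpleGraph W) : Tame H → Tame K → Tame (H ⊕g K)
  | pendant {V : Type} (H : SimpleGraph V) (v : V) : Tame H → Tame (pend H v)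
  | iso {V W : Type} (H : SimpleGraph V) (K : SimpleGraph W) : Nonempty (H ≃g K) → Tame H → Tame K

/-- tame graphs are finite, have an edge and no isolated vertices, and satisfy `Q` -/
theorem tame_Q (hDisj : StDisj) (hPend : StPend) (hK2 : StK2) (hIso : StIso)
    (hC4 : Q (completeBipartiteGraph (Fin 2) (Fin 2))) {V : Type} (H : SimpleGraph V) (h : Tame H) :
    Finite V ∧ H.edgeSet.Nonempty ∧ (∀ v, ∃ w, H.Adj v w) ∧ Q H := by
  induction h with
  | edge =>
    refine ⟨inferInstance, ⟨s(0, 1), ?_⟩, fun v => ?_, hK2⟩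
    · simp
    · fin_cases v
      · exact ⟨1, by simp⟩
      · exact ⟨0, by simp⟩
  | square =>
    refine ⟨inferInstance, ⟨s(Sum.inl 0, Sum.inr 0), ?_⟩, fun v => ?_, hC4⟩
    · simp
    · rcases v with a | a
      · exact ⟨Sum.inr 0, by simp⟩
      · exact ⟨Sum.inl 0, by simp⟩
  | sum H K hH hK ihH ihK =>
    obtain ⟨f1, e1, n1, q1⟩ := ihH
    obtain ⟨f2, e2, n2, q2⟩ := ihK
    refine ⟨inferInstance, ?_, ?_, hDisj _ _ H K e1 e2 n1 n2 q1 q2⟩
    · obtain ⟨e, he⟩ := e1
      induction e using Sym2.ind with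
      | _ a b => exact ⟨s(Sum.inl a, Sum.inl b), he⟩
    · rintro (v | v)
      · obtain ⟨w, hw⟩ := n1 v
        exact ⟨Sum.inl w, hw⟩
      · obtain ⟨w, hw⟩ := n2 v
        exact ⟨Sum.inr w, hw⟩
  | pendant H v hH ih =>
    obtain ⟨f1, e1, n1, q1⟩ := ih
    refine ⟨inferInstance, ?_, ?_, hPend _ H n1 q1 v⟩
    · obtain ⟨e, he⟩ := e1
      induction e using Sym2.ind with
      | _ a b => exact ⟨s(some a, some b), Or.inl ⟨a, b, rfl, rfl, he⟩⟩
    · rintro (_ | x)
      · exact ⟨some v, Or.inr (Or.inr ⟨rfl, rfl⟩)⟩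
      · obtain ⟨w, hw⟩ := n1 x
        exact ⟨some w, Or.inl ⟨x, w, rfl, rfl, hw⟩⟩
  | iso H K hiso hH ih =>
    obtain ⟨f1, e1, n1, q1⟩ := ih
    obtain ⟨φ⟩ := hiso
    refine ⟨Finite.of_equiv _ φ.toEquiv, ?_, ?_, hIso _ _ H K ⟨φ⟩ q1⟩
    · obtain ⟨e, he⟩ := e1
      induction e using Sym2.ind with
      | _ a b => exact ⟨s(φ a, φ b), φ.map_adj_iff.2 he⟩
    · intro x
      obtain ⟨w, hw⟩ := n1 (φ.symm x)
      refine ⟨φ w, ?_⟩
      have h1 := φ.map_adj_iff.2 hw
      rwa [φ.apply_symm_apply] at h1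

/-- `Q` for the 4-cycle -/
theorem q_square (hU : StC4U) (hL : StC4L) : Q (completeBipartiteGraph (Fin 2) (Fin 2)) := by
  classical
  choose! C hC using hU
  obtain ⟨c, hc, hlow⟩ := hL
  refine ⟨fun t => |C t| / c, ?_⟩
  intro t ht n hn G hG hK
  rcases Nat.lt_or_ge n 2 with hn2 | hn2
  · have hn1 : n = 1 := by omega
    subst hn1
    have hzero : G.edgeSet.ncard = 0 := by
      rw [Set.ncard_eq_zero (Set.toFinite _), Set.eq_empty_iff_forall_notMem]
      intro e he
      induction e using Sym2.ind with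
      | _ a b =>
        have : a = b := Subsingleton.elim _ _
        subst this
        exact G.irrefl he
    rw [hzero, Nat.cast_zero]
    positivity
  · have h1 := hC t ht n G hG hK
    have h2 := hlow n hn2
    have h3 : (n : ℝ) ^ (3 / 2 : ℝ) ≤
        (extremalNumber n (completeBipartiteGraph (Fin 2) (Fin 2)) : ℝ) / c := by
      rw [le_div_iff₀ hc]
      linarith
    have h4 : C t * (n : ℝ) ^ (3 / 2 : ℝ) ≤ |C t| * (n : ℝ) ^ (3 / 2 : ℝ) :=
      mul_le_mul_of_nonneg_right (le_abs_self _) (by positivity)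
    have h5 : |C t| * (n : ℝ) ^ (3 / 2 : ℝ) ≤
        |C t| * ((extremalNumber n (completeBipartiteGraph (Fin 2) (Fin 2)) : ℝ) / c) :=
      mul_le_mul_of_nonneg_left h3 (abs_nonneg _)
    calc (G.edgeSet.ncard : ℝ) ≤ _ := h1
      _ ≤ _ := h4
      _ ≤ _ := h5
      _ = _ := by ring

end Pool.Agent.K7.H72.IP
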