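import Pool.Agent.K7.H72.IP.KA4

set_option autoImplicit false

namespace Pool.Agent.K7.H72.IP

open SimpleGraph

/-- `ex(n, K_{a,b})` has the order of magnitude `n ^ (2 - 1 / a)` (lower bound) -/
def HasOrder (a b : ℕ) : Prop :=
  ∃ c : ℝ, 0 < c ∧ ∀ n : ℕ, 2 ≤ n → c * (n : ℝ) ^ (2 - 1 / (a : ℝ)) ≤
    (extremalNumber n (completeBipartiteGraph (Fin a) (Fin b)) : ℝ)

/-- The graphs that arise (up to isomorphism) from a single edge and from the `K_{a,b}` with
`HasOrder a b` by disjoint unions and by attaching pendant edges. -/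
inductive Built : {V : Type} → SimpleGraph V → Prop
  | edge : Built (⊤ : SimpleGraph (Fin 2))
  | complete (a b : ℕ) : 1 ≤ a → 1 ≤ b → HasOrder a b →
      Built (completeBipartiteGraph (Fin a) (Fin b))
  | sum {V W : Type} (H : SimpleGraph V) (K : SimpleGraph W) : Built H → Built K → Built (H ⊕g K)
  | pendant {V : Type} (H : SimpleGraph V) (v : V) : Built H → Built (pend H v)
  | iso {V W : Type} (H : SimpleGraph V) (K : SimpleGraph W) : Nonempty (H ≃g K) → Built H → Built K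

theorem hasOrder_two (hL : StC4L) (b : ℕ) (hb : 2 ≤ b) : HasOrder 2 b := by
  obtain ⟨c, hc, hlow⟩ := hL
  refine ⟨c, hc, fun n hn => ?_⟩
  have h1 := hlow n hn
  have e1 : (2 : ℝ) - 1 / ((2 : ℕ) : ℝ) = 3 / 2 := by norm_num
  rw [e1]
  refine h1.trans ?_
  have h2 : completeBipartiteGraph (Fin 2) (Fin 2) ⊑ completeBipartiteGraph (Fin 2) (Fin b) := by
    refine ⟨⟨⟨Sum.map id (Fin.castLE hb), ?_⟩, ?_⟩⟩
    · rintro (x | x) (y | y) h <;> simp at h ⊢
    · exact Sum.map_injective.2 ⟨Function.injective_id, Fin.castLE_injective hb⟩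
  exact_mod_cast h2.extremalNumber_le

/-- built graphs are finite, have an edge and no isolated vertices, and satisfy `Q` -/
theorem built_Q (hDisj : StDisj) (hPend : StPend) (hK2 : StK2) (hIso : StIso) (hU : StKab)
    {V : Type} (H : SimpleGraph V) (h : Built H) :
    Finite V ∧ H.edgeSet.Nonempty ∧ (∀ v, ∃ w, H.Adj v w) ∧ Q H := by
  induction h with
  | edge =>
    refine ⟨inferInstance, ⟨s(0, 1), ?_⟩, fun v => ?_, hK2⟩
    · simp
    · fin_cases v
      · exact ⟨1, by simp⟩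
      · exact ⟨0, by simp⟩
  | complete a b ha hb hab =>
    refine ⟨inferInstance, ⟨s(Sum.inl ⟨0, ha⟩, Sum.inr ⟨0, hb⟩), ?_⟩, fun v => ?_,
      q_kab hU a b ha hab⟩
    · simp
    · rcases v with x | x
      · exact ⟨Sum.inr ⟨0, hb⟩, by simp⟩
      · exact ⟨Sum.inl ⟨0, ha⟩, by simp⟩
  | sum H K hH hK ihH ihK =>
    obtain ⟨f1, e1, n1, q1⟩ := ihH
    obtain ⟨f2, e2, n2, q2⟩ := ihK
    refine ⟨inferInstance, ?_, ?_, hDisj _ _ H K e1 e2 n1 n2 q1 q2⟩
    · obtain ⟨e, he⟩ := e1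
      induction e using Sym2.ind with
      | _ a b => exact ⟨s(Sum.inl a, Sum.inl b), he⟩
    · rintro (v | v)
      · obtain ⟨w, hw⟩ := n1 v
        exact ⟨Sum.inl w, hw⟩
      · obtain ⟨w, hw⟩ := n2 v
        exact ⟨Sum.inr w, hw⟩
  | pendant H v hH ih =>
    obtain ⟨f1, e1, n1, q1⟩ := ih
    refine ⟨inferInstance, ?_, ?_, hPend _ H n1 q1 v⟩
    · obtain ⟨e, he⟩ := e1
      induction e using Sym2.ind with
      | _ a b => exact ⟨s(some a, some b), Or.inl ⟨a, b, rfl, rfl, he⟩⟩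
    · rintro (_ | x)
      · exact ⟨some v, Or.inr (Or.inr ⟨rfl, rfl⟩)⟩
      · obtain ⟨w, hw⟩ := n1 x
        exact ⟨some w, Or.inl ⟨x, w, rfl, rfl, hw⟩⟩
  | iso H K hiso hH ih =>
    obtain ⟨f1, e1, n1, q1⟩ := ih
    obtain ⟨φ⟩ := hiso
    refine ⟨Finite.of_equiv _ φ.toEquiv, ?_, ?_, hIso _ _ H K ⟨φ⟩ q1⟩
    · obtain ⟨e, he⟩ := e1
      induction e using Sym2.ind with
      | _ a b => exact ⟨s(φ a, φ b), φ.map_adj_iff.2 he⟩
    · intro x
      obtain ⟨w, hw⟩ := n1 (φ.symm x)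
      refine ⟨φ w, ?_⟩
      have h1 := φ.map_adj_iff.2 hw
      rwa [φ.apply_symm_apply] at h1

end Pool.Agent.K7.H72.IP
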